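import Pool.Agent.Helper18.SV.Goals

/-!
# Packet TRA of project SV (MP_cb0067_co)
-/

open Finset
open scoped Pointwise

namespace Pool.Agent.Helper62.SV

open Pool.Agent.Helper95.SF Pool.Agent.Helper18.SV

universe u

lemma ncard_image_congr {α β γ : Type*} (f : α → β) (g : α → γ) (S : Set α)
    (h : ∀ a ∈ S, ∀ b ∈ S, (f a = f b ↔ g a = g b)) : (f '' S).ncard = (g '' S).ncard := by
  classical
  have hc : ∀ y ∈ f '' S, ∃ a ∈ S, f a = y := fun y hy => hy
  choose F hF1 hF2 using hc
  refine Set.ncard_congr (fun y hy => g (F y hy)) ?_ ?_ ?_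
  · intro y hy
    exact ⟨F y hy, hF1 y hy, rfl⟩
  · intro y z hy hz hyz
    have := (h _ (hF1 y hy) _ (hF1 z hz)).2 hyz
    rw [hF2 y hy, hF2 z hz] at this
    exact this
  · rintro _ ⟨a, ha, rfl⟩
    have hfa : f a ∈ f '' S := ⟨a, ha, rfl⟩
    exact ⟨f a, hfa, (h _ (hF1 _ hfa) _ ha).1 (hF2 _ hfa)⟩

section

variable {G : Type u} [AddCommGroup G] [DecidableEq G]

omit [DecidableEq G] in
lemma inj_add (K : AddSubgroup G) (g : G) : Function.Injective (fun k : K => (k : G) + g) := by
  intro a b hab
  exact Subtype.ext (add_right_cancel hab)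

lemma lift [Fintype G] (K : AddSubgroup G) (Y : Finset G) (g : G) (h : ∀ y ∈ Y, y - g ∈ K) :
    ∃ Y' : Finset K, Y = Y'.image (fun k : K => (k : G) + g) := by
  classical
  refine ⟨Y.attach.image (fun y => (⟨y.1 - g, h y.1 y.2⟩ : K)), ?_⟩
  ext y
  simp only [Finset.mem_image, Finset.mem_attach, true_and, Subtype.exists]
  constructor
  · intro hy
    exact ⟨y - g, h y hy, ⟨y, hy, rfl⟩, by simp⟩
  · rintro ⟨a, ha, ⟨b, hb, hab⟩, rfl⟩
    have : b - g = a := congrArg Subtype.val hab
    rw [← this, sub_add_cancel]
    exact hb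

lemma add_image (K : AddSubgroup G) (X B : Finset K) (g x : G) :
    X.image (fun k : K => (k : G) + g) + B.image (fun k : K => (k : G) + x) =
      (X + B).image (fun k : K => (k : G) + (g + x)) := by
  ext y
  simp only [Finset.mem_add, Finset.mem_image]
  constructor
  · rintro ⟨_, ⟨a, ha, rfl⟩, _, ⟨b, hb, rfl⟩, rfl⟩
    exact ⟨a + b, ⟨a, ha, b, hb, rfl⟩, by push_cast; abel⟩
  · rintro ⟨_, ⟨a, ha, b, hb, rfl⟩, rfl⟩
    exact ⟨_, ⟨a, ha, rfl⟩, _, ⟨b, hb, rfl⟩, by push_cast; abel⟩

end

/-- **TRA**. -/
theorem t (h : G_TRI.{u}) : G_TRA.{u} := by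
  intro G _ _ _ A hA
  classical
  obtain ⟨x, hx⟩ : A.Nonempty := Finset.card_pos.1 (by omega)
  set K : AddSubgroup G := dif A with hK
  have hdiff : ∀ a ∈ A, ∀ b ∈ A, a - b ∈ K := by
    intro a ha b hb
    apply AddSubgroup.subset_closure
    rw [Finset.mem_coe]
    exact Finset.sub_mem_sub ha hb
  have hAK : ∀ a ∈ A, a - x ∈ K := fun a ha => hdiff a ha x hx
  obtain ⟨B, hB⟩ := lift K A x hAK
  have : Fintype K := Fintype.ofFinite K
  have hmem : ∀ k : K, k ∈ B ↔ (k : G) + x ∈ A := by
    intro k
    constructor
    · intro hk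
      rw [hB]
      exact Finset.mem_image_of_mem _ hk
    · intro hk
      rw [hB, Finset.mem_image] at hk
      obtain ⟨b, hb, hbk⟩ := hk
      have := inj_add K x hbk
      rw [← this]; exact hb
  have hcard : B.card = A.card := by
    rw [hB, Finset.card_image_of_injective _ (inj_add K x)]
  have h0 : (0 : K) ∈ B := by
    rw [hmem]; simpa using hx
  have hgen : AddSubgroup.closure (B : Set K) = ⊤ := by
    rw [eq_top_iff]
    intro k _
    have hle : K ≤ (AddSubgroup.closure (B : Set K)).map K.subtype := by
      refine (AddSubgroup.closure_le _).2 ?_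
      intro z hz
      rw [Finset.mem_coe] at hz
      obtain ⟨a, ha, b, hb, rfl⟩ := Finset.mem_sub.1 hz
      refine ⟨⟨a - x, hAK a ha⟩ - ⟨b - x, hAK b hb⟩, ?_, ?_⟩
      · apply AddSubgroup.sub_mem
        · apply AddSubgroup.subset_closure
          rw [Finset.mem_coe, hmem]
          simpa using ha
        · apply AddSubgroup.subset_closure
          rw [Finset.mem_coe, hmem]
          simpa using hb
      · simp
    obtain ⟨b, hb, hbk⟩ := hle k.2
    have : b = k := Subtype.ext hbk
    rw [← this]; exact hb
  rcases h K B h0 (by omega) hgen with h1 | ⟨M, hM, hN⟩ | h3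
  · left
    obtain ⟨u, v, c, hc1, hc2⟩ := h1
    refine ⟨(u : G) + x, (v : G), c, ?_, by rw [← hcard]; exact hc2⟩
    rw [hB, hc1]
    unfold prog
    rw [Finset.image_image]
    apply Finset.image_congr
    intro i _
    simp only [Function.comp]
    push_cast
    abel
  · right; left
    have hmapmem : ∀ k : K, (k : G) ∈ M.map K.subtype ↔ k ∈ M := by
      intro k
      constructor
      · rintro ⟨m, hm, hmk⟩
        have : m = k := Subtype.ext hmk
        rw [← this]; exact hm
      · intro hk
        exact ⟨k, hk, rfl⟩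
    have hcM : Nat.card (M.map K.subtype) = Nat.card M := by
      refine (Nat.card_congr (Equiv.ofBijective
        (fun m : M => (⟨(m.1 : G), (hmapmem m.1).2 m.2⟩ : M.map K.subtype)) ⟨?_, ?_⟩)).symm
      · intro a b hab
        have hab' : (a.1 : G) = (b.1 : G) := congrArg (fun z => z.1) hab
        exact Subtype.ext (Subtype.ext hab')
      · rintro ⟨_, m, hm, rfl⟩
        exact ⟨⟨m, hm⟩, rfl⟩
    have hnc : nc (M.map K.subtype) A = nc M B := by
      unfold nc
      have e1 : ((fun a : G => (a : G ⧸ M.map K.subtype)) '' (A : Set G)) =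
          (fun k : K => (((k : G) + x : G) : G ⧸ M.map K.subtype)) '' (B : Set K) := by
        have e2 : (A : Set G) = (fun k : K => (k : G) + x) '' (B : Set K) := by
          conv_lhs => rw [hB]
          rw [Finset.coe_image]
        rw [e2, Set.image_image]
      rw [e1]
      apply ncard_image_congr
      intro a _ b _
      rw [QuotientAddGroup.eq, QuotientAddGroup.eq, ← hmapmem]
      have : -((a : G) + x) + ((b : G) + x) = ((-a + b : K) : G) := by
        push_cast; abel
      rw [this]
    refine ⟨M.map K.subtype, ?_, ?_⟩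
    · intro hbot
      apply hM
      rw [eq_bot_iff]
      intro m hm
      have h1 := (hmapmem m).2 hm
      rw [hbot, AddSubgroup.mem_bot] at h1
      rw [AddSubgroup.mem_bot]
      exact Subtype.ext h1
    · unfold Near
      rw [hcM, hnc, ← hcard]
      exact hN
  · right; right
    have hstep : ∀ (X : Finset G) (g : G), (∀ y ∈ X, y - g ∈ K) → 2 ≤ X.card →
        (X + A).card + 2 ≤ Nat.card K → X.card + A.card ≤ (X + A).card := by
      intro X g hX hX2 hXA
      obtain ⟨X', hX'⟩ := lift K X g hX
      have c1 : X.card = X'.card := by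
        rw [hX', Finset.card_image_of_injective _ (inj_add K g)]
      have c2 : (X + A).card = (X' + B).card := by
        conv_lhs => rw [hX', hB]
        rw [add_image, Finset.card_image_of_injective _ (inj_add K (g + x))]
      have := h3 X' (by omega) (by rw [← c2, ← Nat.card_eq_fintype_card]; exact hXA)
      rw [c1, c2, ← hcard]
      exact this
    have hmain : ∀ n : ℕ, ∀ j k : ℕ, j + k = n → 1 ≤ n → (S A j k).card + 2 ≤ Nat.card K →
        n * A.card ≤ (S A j k).card := by
      intro n
      induction n with
      | zero => intro j k _ h; omega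
      | succ n ih =>
        have hpos : ∀ j k : ℕ, j + 1 + k = n + 1 → (S A (j + 1) k).card + 2 ≤ Nat.card K →
            (n + 1) * A.card ≤ (S A (j + 1) k).card := by
          intro j k hjk hc
          rcases Nat.eq_zero_or_pos n with hn | hn
          · have hj : j = 0 := by omega
            have hk : k = 0 := by omega
            subst hj hk
            rw [show S A (0 + 1) 0 = A from S_one_zero A, hn]
            omega
          · have hle : (S A j k).card ≤ (S A (j + 1) k).card := by
              rw [S_succ]
              exact Finset.card_le_card_add_right ⟨x, hx⟩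
            have h4 := ih j k (by omega) hn (by omega)
            have h5 : 1 * A.card ≤ n * A.card := Nat.mul_le_mul_right _ hn
            have h6 := hstep (S A j k) (j • x - k • x) (S_coset K x hAK j k) (by omega)
              (by rw [← S_succ]; exact hc)
            rw [S_succ]
            have h7 : (n + 1) * A.card = n * A.card + A.card := by ring
            omega
        intro j k hjk _ hc
        rcases j with _ | j
        · obtain ⟨k', rfl⟩ : ∃ k', k = k' + 1 := ⟨k - 1, by omega⟩
          rw [S_card_comm] at hc ⊢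
          exact hpos k' 0 (by omega) hc
        · exact hpos j k (by omega) hc
    intro j k hjk hc
    exact hmain (j + k) j k rfl hjk hc

end Pool.Agent.Helper62.SV
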